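import Pool.Agent.Helper4.MCP.GoalsB

/-!
Project MCP (MP_d8224a_co), packet SPR: spread of tuples of hosts.
-/

set_option autoImplicit false

namespace Pool.Agent.Helper91.MCP

open Pool.Agent.Helper4.MCP Pool.Agent.Helper26.MCE Pool.Agent.Helper87.MC Finset

open Classical in
/-- The preimage of a set under a surjective homomorphism. -/
theorem card_pre {X Y : Type} [AddCommGroup X] [AddCommGroup Y] [Fintype X] [Fintype Y]
    (f : X →+ Y) (hf : Function.Surjective f) (P : Y → Prop) :
    (univ.filter fun x => P (f x)).card * Fintype.card Y =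
      Fintype.card X * (univ.filter P).card := by
  have h0 : ∀ y : Y, (univ.filter fun x => f x = y).card = (univ.filter fun x => f x = 0).card :=
    fun y => AddMonoidHom.card_fiber_eq_of_mem_range f (hf y) (hf 0)
  have h1 : ∀ Q : Y → Prop, (univ.filter fun x => Q (f x)).card =
      (univ.filter Q).card * (univ.filter fun x => f x = 0).card := by
    intro Q
    rw [card_eq_sum_card_fiberwise (f := f) (t := univ.filter Q)]
    · rw [← smul_eq_mul, ← sum_const]
      refine sum_congr rfl fun y hy => ?_
      rw [← h0 y, filter_filter]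
      congr 1
      ext x
      simp only [mem_filter, mem_univ, true_and]
      constructor
      · exact fun h => h.2
      · intro h
        exact ⟨h ▸ (mem_filter.1 hy).2, h⟩
    · intro x hx
      have := (mem_filter.1 hx).2
      exact mem_coe.2 (mem_filter.2 ⟨mem_univ _, this⟩)
  have h2 : Fintype.card X = Fintype.card Y * (univ.filter fun x => f x = 0).card := by
    have := h1 fun _ => True
    simpa using this
  rw [h1 P, h2]
  ring

open Classical in
/-- The number of the tuples `x` with a common translate `g`. -/
theorem card_tup {G : Type} [AddCommGroup G] [Fintype G] {A : Type} [Fintype A]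
    (K : A → AddSubgroup G) :
    (univ.filter fun x : A → G => ∃ g, ∀ a, g - x a ∈ K a).card *
      Nat.card (⨅ a, K a : AddSubgroup G) ≤ Fintype.card G * ∏ a, Nat.card (K a) := by
  let f : (G × (∀ a, K a)) →+ (A → G) :=
    { toFun := fun z a => z.1 - z.2 a
      map_zero' := by
        funext a
        simp
      map_add' := by
        intro z w
        funext a
        simp only [Prod.fst_add, Prod.snd_add, Pi.add_apply, AddSubgroup.coe_add]
        abel }
  have h0 : ∀ y : A → G, (∃ g, ∀ a, g - y a ∈ K a) →
      (univ.filter fun x => f x = y).card = (univ.filter fun x => f x = 0).card := by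
    intro y hy
    obtain ⟨g, hg⟩ := hy
    exact AddMonoidHom.card_fiber_eq_of_mem_range f
      ⟨(g, fun a => ⟨g - y a, hg a⟩), by funext a; show g - (g - y a) = y a; abel⟩ ⟨0, map_zero f⟩
  have h1 : Fintype.card (G × (∀ a, K a)) =
      (univ.filter fun x : A → G => ∃ g, ∀ a, g - x a ∈ K a).card *
        (univ.filter fun x => f x = 0).card := by
    rw [← card_univ, card_eq_sum_card_fiberwise (f := f)
      (t := univ.filter fun x : A → G => ∃ g, ∀ a, g - x a ∈ K a)]
    · rw [← smul_eq_mul, ← sum_const]
      refine sum_congr rfl fun y hy => ?_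
      rw [← h0 y (mem_filter.1 hy).2]
    · intro z _
      refine mem_coe.2 (mem_filter.2 ⟨mem_univ _, z.1, fun a => ?_⟩)
      show z.1 - (z.1 - (z.2 a : G)) ∈ K a
      rw [sub_sub_cancel]
      exact (z.2 a).2
  have h2 : Nat.card (⨅ a, K a : AddSubgroup G) ≤ (univ.filter fun x => f x = 0).card := by
    rw [Nat.card_eq_fintype_card, ← card_univ]
    refine card_le_card_of_injOn
      (fun g : (⨅ a, K a : AddSubgroup G) => ((g : G), fun a => ⟨(g : G), ?_⟩)) ?_ ?_
    · exact (AddSubgroup.mem_iInf.1 g.2) a
    · intro g _
      refine mem_coe.2 (mem_filter.2 ⟨mem_univ _, ?_⟩)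
      funext a
      show (g : G) - (g : G) = 0
      rw [sub_self]
    · intro g _ h _ e
      exact Subtype.ext (congrArg Prod.fst e)
  have h3 : Fintype.card (G × (∀ a, K a)) = Fintype.card G * ∏ a, Nat.card (K a) := by
    rw [Fintype.card_prod, Fintype.card_pi]
    simp only [Nat.card_eq_fintype_card]
  rw [← h3, h1]
  exact Nat.mul_le_mul_left _ h2

/-- **SPR**. -/
theorem goalSPR : G_SPR := by
  classical
  intro G _ _ M A _ _ K
  have hsum : (∑ ω : Fin M → G, (univ.filter fun v : A → Fin M => Function.Injective v ∧
      ∃ g, ∀ a, g - ω (v a) ∈ K a).card) =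
      ∑ v : A → Fin M, (univ.filter fun ω : Fin M → G => Function.Injective v ∧
        ∃ g, ∀ a, g - ω (v a) ∈ K a).card := by
    simp only [card_filter]
    exact sum_comm
  have hv : ∀ v : A → Fin M, (univ.filter fun ω : Fin M → G => Function.Injective v ∧
        ∃ g, ∀ a, g - ω (v a) ∈ K a).card * Nat.card (⨅ a, K a : AddSubgroup G) *
        Fintype.card G ^ Fintype.card A ≤
      Fintype.card G ^ M * (Fintype.card G * ∏ a, Nat.card (K a)) := by
    intro v
    by_cases hi : Function.Injective v
    · let f : (Fin M → G) →+ (A → G) :=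
        { toFun := fun ω a => ω (v a)
          map_zero' := rfl
          map_add' := fun _ _ => rfl }
      have hf : Function.Surjective f := by
        intro x
        refine ⟨Function.extend v x 0, ?_⟩
        funext a
        exact hi.extend_apply x 0 a
      have h4 : Fintype.card (A → G) = Fintype.card G ^ Fintype.card A := Fintype.card_fun
      have h5 : Fintype.card (Fin M → G) = Fintype.card G ^ M := by
        rw [Fintype.card_fun, Fintype.card_fin]
      have h1 : (univ.filter fun ω : Fin M → G => ∃ g, ∀ a, g - f ω a ∈ K a).card *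
          Fintype.card G ^ Fintype.card A = Fintype.card G ^ M *
            (univ.filter fun x : A → G => ∃ g, ∀ a, g - x a ∈ K a).card := by
        have h := card_pre f hf (fun x : A → G => ∃ g, ∀ a, g - x a ∈ K a)
        rw [h4, h5] at h
        convert h
      have h2 : (univ.filter fun ω : Fin M → G => Function.Injective v ∧
          ∃ g, ∀ a, g - ω (v a) ∈ K a) =
          univ.filter fun ω : Fin M → G => ∃ g, ∀ a, g - f ω a ∈ K a := by
        ext ω
        simp only [mem_filter, mem_univ, true_and]
        exact ⟨fun h => h.2, fun h => ⟨hi, h⟩⟩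
      have h3 := card_tup K
      rw [h2]
      calc _ = ((univ.filter fun ω : Fin M → G => ∃ g, ∀ a, g - f ω a ∈ K a).card *
            Fintype.card G ^ Fintype.card A) * Nat.card (⨅ a, K a : AddSubgroup G) := by ring
        _ = Fintype.card G ^ M * ((univ.filter fun x : A → G => ∃ g, ∀ a, g - x a ∈ K a).card *
            Nat.card (⨅ a, K a : AddSubgroup G)) := by
            rw [h1]
            ring
        _ ≤ _ := Nat.mul_le_mul_left _ h3
    · have h2 : (univ.filter fun ω : Fin M → G => Function.Injective v ∧
          ∃ g, ∀ a, g - ω (v a) ∈ K a) = ∅ := by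
        refine filter_eq_empty_iff.2 fun ω _ h => hi h.1
      rw [h2, card_empty, zero_mul, zero_mul]
      exact Nat.zero_le _
  rw [hsum, sum_mul, sum_mul]
  calc _ ≤ ∑ _v : A → Fin M, Fintype.card G ^ M * (Fintype.card G * ∏ a, Nat.card (K a)) :=
        sum_le_sum fun v _ => hv v
    _ = _ := by
        rw [sum_const, card_univ, Fintype.card_fun, Fintype.card_fin, smul_eq_mul]
        ring

end Pool.Agent.Helper91.MCP
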